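import Pool.Agent.H24.RCN.Targets

/-!
# Row HRB: the rank bound
-/

set_option autoImplicit false

open NumberField Pool.Agent.H24.RCN

namespace Pool.Agent.H7.RCN

private theorem srj {A B C : Type} [Finite B] (ψ : A → B) (π : A → C)
    (hπ : Function.Surjective π) (h : ∀ a a', ψ a = ψ a' → π a = π a') :
    Finite C ∧ Nat.card C ≤ Nat.card B := by
  choose s hs using hπ
  have hinj : Function.Injective (fun c => ψ (s c)) := by
    intro c c' hc
    have := h _ _ hc
    rwa [hs, hs] at this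
  exact ⟨Finite.of_injective _ hinj, Nat.card_le_card_of_injective _ hinj⟩

/-- The sum of the powers. -/
private theorem nrm {M : Type} [AddCommGroup M] (f : Module.End ℤ M) (κ : ℕ) (hf : f ^ κ = 1) :
    (∀ x, (f - 1) (∑ i ∈ Finset.range κ, (f ^ i) x) = 0) ∧
    ∀ z, (f - 1) z = 0 → ∑ i ∈ Finset.range κ, (f ^ i) z = (κ : ℤ) • z := by
  constructor
  · intro x
    have h1 : (f - 1) * ∑ i ∈ Finset.range κ, f ^ i = 0 := by
      rw [mul_geom_sum, hf, sub_self]
    have h2 := LinearMap.congr_fun h1 x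
    rw [Module.End.mul_apply, LinearMap.sum_apply] at h2
    exact h2
  · intro z hz
    have hz' : f z = z := by
      rw [LinearMap.sub_apply, Module.End.one_apply, sub_eq_zero] at hz
      exact hz
    have hp : ∀ i : ℕ, (f ^ i) z = z := by
      intro i
      induction i with
      | zero => rw [pow_zero, Module.End.one_apply]
      | succ i ih => rw [pow_succ, Module.End.mul_apply, hz', ih]
    rw [Finset.sum_congr rfl (fun i _ => hp i), Finset.sum_const, Finset.card_range,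
      natCast_zsmul]

/-- The kernels. -/
private theorem krn {M : Type} [AddCommGroup M] (f : Module.End ℤ M) (κ : ℕ) (hf : f ^ κ = 1)
    (hN : ∀ x : M, ∑ i ∈ Finset.range κ, (f ^ i) x = 0 → ∃ y, f y - y = x) (x x' z : M)
    (hz : (f - 1) z = 0) (hzz : (κ : ℤ) • z = ∑ i ∈ Finset.range κ, (f ^ i) x -
      ∑ i ∈ Finset.range κ, (f ^ i) x') :
    ∃ w, (f - 1) ((f - 1) w) = (f - 1) x - (f - 1) x' := by
  have h1 : ∑ i ∈ Finset.range κ, (f ^ i) (x - x' - z) = 0 := by
    have h2 : ∀ i, (f ^ i) (x - x' - z) = (f ^ i) x - (f ^ i) x' - (f ^ i) z := by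
      intro i
      rw [map_sub, map_sub]
    rw [Finset.sum_congr rfl (fun i _ => h2 i), Finset.sum_sub_distrib, Finset.sum_sub_distrib,
      (nrm f κ hf).2 z hz, hzz, sub_self]
  obtain ⟨w, hw⟩ := hN _ h1
  refine ⟨w, ?_⟩
  have hw' : (f - 1) w = x - x' - z := by
    rw [← hw, LinearMap.sub_apply, Module.End.one_apply]
  rw [hw', map_sub, map_sub, hz, sub_zero]

/-- The cardinality of the quotient. -/
private theorem crd {M : Type} [AddCommGroup M] (f : Module.End ℤ M) (κ : ℕ) (hf : f ^ κ = 1)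
    (hN : ∀ x : M, ∑ i ∈ Finset.range κ, (f ^ i) x = 0 → ∃ y, f y - y = x)
    (g : Module.End ℤ (LinearMap.range (f - 1)))
    (hg : ∀ x : LinearMap.range (f - 1), ((g x : LinearMap.range (f - 1)) : M) = (f - 1) (x : M))
    [Finite (LinearMap.ker (f - 1) ⧸
      LinearMap.range (((κ : ℕ) : ℤ) • (1 : Module.End ℤ (LinearMap.ker (f - 1)))))] :
    Finite (LinearMap.range (f - 1) ⧸ LinearMap.range g) ∧
    Nat.card (LinearMap.range (f - 1) ⧸ LinearMap.range g) ≤
      Nat.card (LinearMap.ker (f - 1) ⧸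
        LinearMap.range (((κ : ℕ) : ℤ) • (1 : Module.End ℤ (LinearMap.ker (f - 1))))) := by
  refine srj (A := M) (fun x => Submodule.Quotient.mk
    ⟨∑ i ∈ Finset.range κ, (f ^ i) x, LinearMap.mem_ker.2 ((nrm f κ hf).1 x)⟩)
    (fun x => Submodule.Quotient.mk ⟨(f - 1) x, LinearMap.mem_range_self _ x⟩) ?_ ?_
  · intro y
    obtain ⟨⟨_, ⟨x, rfl⟩⟩, rfl⟩ := Submodule.Quotient.mk_surjective _ y
    exact ⟨x, rfl⟩
  · intro x x' hxx
    rw [Submodule.Quotient.eq] at hxx ⊢
    obtain ⟨z, hz⟩ := hxx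
    have hz1 : (κ : ℤ) • (z : M) = ∑ i ∈ Finset.range κ, (f ^ i) x -
        ∑ i ∈ Finset.range κ, (f ^ i) x' := congrArg Subtype.val hz
    obtain ⟨w, hw⟩ := krn f κ hf hN x x' z (LinearMap.mem_ker.1 z.2) hz1
    refine ⟨⟨(f - 1) w, LinearMap.mem_range_self _ w⟩, ?_⟩
    apply Subtype.ext
    rw [hg]
    exact hw

/-- The rank of the range. -/
private theorem rnk {M : Type} [AddCommGroup M] [Module.Free ℤ M] [Module.Finite ℤ M]
    (h : M →ₗ[ℤ] M) : Module.finrank ℤ (LinearMap.range h) +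
      Module.finrank ℤ (LinearMap.ker h) = Module.finrank ℤ M := by
  rw [← LinearEquiv.finrank_eq h.quotKerEquivRange]
  exact Submodule.finrank_quotient_add_finrank _

theorem pf_HRB (h0 : T_HB0) (h1 : T_HB1) (h2 : T_HB2) : T_HRB := by
  intro M _ _ _ f κ a hκ hf hN ha
  have hgex : ∃ g : Module.End ℤ (LinearMap.range (f - 1)),
      ∀ x : LinearMap.range (f - 1), ((g x : LinearMap.range (f - 1)) : M) =
        (f - 1) (x : M) :=
    ⟨(f - 1).restrict (fun x _ => LinearMap.mem_range_self _ x), fun _ => rfl⟩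
  obtain ⟨g, hg⟩ := hgex
  have hgc : ∀ (n : ℕ) (x : LinearMap.range (f - 1)),
      (((g ^ n) x : LinearMap.range (f - 1)) : M) = ((f - 1) ^ n) (x : M) := by
    intro n
    induction n with
    | zero => intro x; rw [pow_zero, pow_zero, Module.End.one_apply, Module.End.one_apply]
    | succ n ih =>
      intro x
      rw [pow_succ, pow_succ, Module.End.mul_apply, Module.End.mul_apply, ih, hg]
  obtain ⟨hfin, hcard⟩ := h0 (LinearMap.ker (f - 1)) κ hκ.one_lt.le
  have hfin' := hfin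
  obtain ⟨hfD, hcD⟩ := crd f κ hf hN g hg
  have hle : Nat.card (LinearMap.range (f - 1) ⧸ LinearMap.range g) ≤ κ ^ a := by
    refine hcD.trans ?_
    rw [hcard]
    exact Nat.pow_le_pow_right hκ.pos ha
  have hrD : Module.finrank ℤ (LinearMap.range (f - 1)) ≤ (κ - 1) * a := by
    refine h1 (LinearMap.range (f - 1)) g κ (κ - 1) a hκ ?_ hfD hle
    intro x
    obtain ⟨y, hy, hxy⟩ := h2 M f κ hκ hf x x.2
    refine ⟨⟨y, hy⟩, ?_⟩
    apply Subtype.ext
    rw [hgc]
    exact hxy
  have hsum : Module.finrank ℤ (LinearMap.range (f - 1)) +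
      Module.finrank ℤ (LinearMap.ker (f - 1)) = Module.finrank ℤ M := rnk (f - 1)
  have hk : κ * a = (κ - 1) * a + a := by
    obtain ⟨m, rfl⟩ : ∃ m, κ = m + 1 := ⟨κ - 1, by have := hκ.pos; omega⟩
    rw [Nat.add_sub_cancel]
    ring
  omega

end Pool.Agent.H7.RCN
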